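import Pool.Agent.Y644.JW.Stm

/-!
# An improving edge at a non-optimal vertex of a polytope
-/

set_option autoImplicit false

namespace Pool.Agent.Y85.JW

open Pool.Agent.Y644.JW Filter Topology

variable {E : Type} [NormedAddCommGroup E] [InnerProductSpace ℝ E] [CompleteSpace E]

/-- a functional strictly maximal at an extreme point `v` -/
theorem strict_at (S : Finset E) (v : E)
    (hv : v ∈ Set.extremePoints ℝ (convexHull ℝ (S : Set E))) :
    ∃ a : E, ∀ s ∈ S, s ≠ v → inner ℝ a s < inner ℝ a v := by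
  classical
  have h1 : v ∉ convexHull ℝ (convexHull ℝ (S : Set E) \ {v}) :=
    (((convex_convexHull ℝ _).mem_extremePoints_iff_mem_sdiff_convexHull_sdiff).1 hv).2
  have h2 : v ∉ convexHull ℝ ((S.erase v : Finset E) : Set E) := by
    intro h
    apply h1
    refine convexHull_mono ?_ h
    intro x hx
    have hx' := Finset.mem_coe.1 hx
    exact ⟨subset_convexHull ℝ _ (Finset.mem_coe.2 (Finset.mem_of_mem_erase hx')),
      fun h => (Finset.ne_of_mem_erase hx') h⟩
  have hcl : IsClosed (convexHull ℝ ((S.erase v : Finset E) : Set E)) :=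
    ((S.erase v).finite_toSet.isCompact_convexHull ℝ).isClosed
  obtain ⟨f, u, hf1, hf2⟩ := geometric_hahn_banach_closed_point (convex_convexHull ℝ _) hcl h2
  refine ⟨(InnerProductSpace.toDual ℝ E).symm f, ?_⟩
  intro s hs hsv
  rw [InnerProductSpace.toDual_symm_apply, InnerProductSpace.toDual_symm_apply]
  exact (hf1 s (subset_convexHull ℝ _ (Finset.mem_coe.2 (Finset.mem_erase.2 ⟨hsv, hs⟩)))).trans hf2

omit [CompleteSpace E] in
/-- distinct extreme points are seen from `v` in distinct directions -/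
theorem dir_inj (S : Finset E) (v : E) (hv : v ∈ S)
    (hS : ∀ s ∈ S, s ∈ Set.extremePoints ℝ (convexHull ℝ (S : Set E)))
    (s t : E) (hs : s ∈ S) (ht : t ∈ S) (hsv : s ≠ v) (a b : ℝ) (ha : 0 < a) (hab : a ≤ b)
    (h : a⁻¹ • (s - v) = b⁻¹ • (t - v)) : s = t := by
  rcases hab.eq_or_lt with rfl | hlt
  · have h1 : a • (a⁻¹ • (s - v)) = a • (a⁻¹ • (t - v)) := by rw [h]
    rw [smul_smul, smul_smul, mul_inv_cancel₀ ha.ne', one_smul, one_smul] at h1
    exact sub_left_injective h1
  · exfalso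
    have hb : 0 < b := ha.trans hlt
    have h1 : s = (1 - a / b) • v + (a / b) • t := by
      have h2 : a • (a⁻¹ • (s - v)) = a • (b⁻¹ • (t - v)) := by rw [h]
      rw [smul_smul, smul_smul, mul_inv_cancel₀ ha.ne', one_smul, ← div_eq_mul_inv] at h2
      have h3 : s = (a / b) • (t - v) + v := by rw [← h2]; abel
      rw [h3, smul_sub, sub_smul, one_smul]
      abel
    have h4 : s ∈ openSegment ℝ v t := by
      refine ⟨1 - a / b, a / b, ?_, div_pos ha hb, by ring, h1.symm⟩
      have : a / b < 1 := (div_lt_one hb).2 hlt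
      linarith
    have h5 := (mem_extremePoints.1 (hS s hs)).2 v (subset_convexHull ℝ _ (Finset.mem_coe.2 hv)) t
      (subset_convexHull ℝ _ (Finset.mem_coe.2 ht)) h4
    exact hsv h5.1.symm

/-- if a functional is maximal on `S` exactly at `v` and `w`, the segment is exposed -/
theorem exposed_seg (S : Finset E) (v w : E) (hv : v ∈ S) (hw : w ∈ S) (hvw : v ≠ w) (φ : E)
    (h1 : inner ℝ φ w = inner ℝ φ v) (h2 : ∀ s ∈ S, s ≠ v → s ≠ w → inner ℝ φ s < inner ℝ φ v) :
    IsExposed ℝ (convexHull ℝ (S : Set E)) (segment ℝ v w) := by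
  classical
  intro _
  refine ⟨InnerProductSpace.toDual ℝ E φ, ?_⟩
  have hle : ∀ s ∈ S, inner ℝ φ s ≤ inner ℝ φ v := by
    intro s hs
    by_cases hsv : s = v
    · rw [hsv]
    · by_cases hsw : s = w
      · rw [hsw, h1]
      · exact (h2 s hs hsv hsw).le
  have hall : ∀ y ∈ convexHull ℝ (S : Set E), inner ℝ φ y ≤ inner ℝ φ v := by
    intro y hy
    rw [Finset.mem_convexHull'] at hy
    obtain ⟨c, hc0, hc1, hc2⟩ := hy
    rw [← hc2, inner_sum]
    calc ∑ i ∈ S, inner ℝ φ (c i • i) ≤ ∑ i ∈ S, c i * inner ℝ φ v := by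
          refine Finset.sum_le_sum fun i hi => ?_
          rw [inner_smul_right]
          exact mul_le_mul_of_nonneg_left (hle i hi) (hc0 i hi)
      _ = inner ℝ φ v := by rw [← Finset.sum_mul, hc1, one_mul]
  ext x
  constructor
  · rintro ⟨a, b, ha, hb, hab, rfl⟩
    refine ⟨?_, ?_⟩
    · exact (convex_convexHull ℝ _) (subset_convexHull ℝ _ (Finset.mem_coe.2 hv))
        (subset_convexHull ℝ _ (Finset.mem_coe.2 hw)) ha hb hab
    · intro y hy
      rw [InnerProductSpace.toDual_apply_apply, InnerProductSpace.toDual_apply_apply, inner_add_right,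
        inner_smul_right, inner_smul_right, h1, ← add_mul, hab, one_mul]
      exact hall y hy
  · rintro ⟨hx, hmax⟩
    have h3 := hmax v (subset_convexHull ℝ _ (Finset.mem_coe.2 hv))
    rw [InnerProductSpace.toDual_apply_apply, InnerProductSpace.toDual_apply_apply] at h3
    rw [Finset.mem_convexHull'] at hx
    obtain ⟨c, hc0, hc1, hc2⟩ := hx
    have h4 : ∑ i ∈ S, c i * (inner ℝ φ v - inner ℝ φ i) = 0 := by
      have h5 : ∑ i ∈ S, c i * (inner ℝ φ v - inner ℝ φ i) = inner ℝ φ v - inner ℝ φ x := by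
        rw [← hc2, inner_sum]
        simp only [mul_sub, Finset.sum_sub_distrib, inner_smul_right]
        rw [← Finset.sum_mul, hc1, one_mul]
      have h6 : 0 ≤ ∑ i ∈ S, c i * (inner ℝ φ v - inner ℝ φ i) :=
        Finset.sum_nonneg fun i hi => mul_nonneg (hc0 i hi) (sub_nonneg.2 (hle i hi))
      linarith
    have h7 : ∀ i ∈ S, c i * (inner ℝ φ v - inner ℝ φ i) = 0 :=
      (Finset.sum_eq_zero_iff_of_nonneg
        (fun i hi => mul_nonneg (hc0 i hi) (sub_nonneg.2 (hle i hi)))).1 h4
    have h8 : ∀ i ∈ S, i ∉ ({v, w} : Finset E) → c i = 0 := by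
      intro i hi hni
      rw [Finset.mem_insert, Finset.mem_singleton, not_or] at hni
      rcases mul_eq_zero.1 (h7 i hi) with h | h
      · exact h
      · exact absurd h (sub_pos.2 (h2 i hi hni.1 hni.2)).ne'
    have hsub : ({v, w} : Finset E) ⊆ S := by
      intro i hi
      rw [Finset.mem_insert, Finset.mem_singleton] at hi
      rcases hi with rfl | rfl
      · exact hv
      · exact hw
    have h9 : ∑ i ∈ ({v, w} : Finset E), c i = ∑ i ∈ S, c i :=
      Finset.sum_subset hsub fun i hi hni => h8 i hi hni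
    have h10 : ∑ i ∈ ({v, w} : Finset E), c i • i = ∑ i ∈ S, c i • i :=
      Finset.sum_subset hsub fun i hi hni => by rw [h8 i hi hni, zero_smul]
    rw [Finset.sum_pair hvw] at h9 h10
    exact ⟨c v, c w, hc0 v hv, hc0 w hw, h9.trans hc1, h10.trans hc2⟩

/-- the improving edge in a general inner product space -/
theorem improve (S : Finset E) (hS : ∀ s ∈ S, s ∈ Set.extremePoints ℝ (convexHull ℝ (S : Set E)))
    (g v t : E) (hv : v ∈ S) (ht : t ∈ S) (hgt : inner ℝ g v < inner ℝ g t) :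
    ∃ w ∈ S, v ≠ w ∧ IsExposed ℝ (convexHull ℝ (S : Set E)) (segment ℝ v w) ∧
      inner ℝ g v < inner ℝ g w := by
  classical
  obtain ⟨a, ha⟩ := strict_at S v (hS v hv)
  have htv : t ≠ v := by rintro rfl; exact lt_irrefl _ hgt
  set D : E → ℝ := fun s => inner ℝ a v - inner ℝ a s with hD
  set q : E → E := fun s => (D s)⁻¹ • (s - v) with hq
  have hDpos : ∀ s ∈ S.erase v, 0 < D s := by
    intro s hs
    rw [Finset.mem_erase] at hs
    exact sub_pos.2 (ha s hs.2 hs.1)
  have hqinj : ∀ s ∈ S.erase v, ∀ r ∈ S.erase v, q s = q r → s = r := by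
    intro s hs r hr h
    rcases le_total (D s) (D r) with hle | hle
    · exact dir_inj S v hv hS s r (Finset.mem_of_mem_erase hs) (Finset.mem_of_mem_erase hr)
        (Finset.ne_of_mem_erase hs) (D s) (D r) (hDpos s hs) hle h
    · exact (dir_inj S v hv hS r s (Finset.mem_of_mem_erase hr) (Finset.mem_of_mem_erase hs)
        (Finset.ne_of_mem_erase hr) (D r) (D s) (hDpos r hr) hle h.symm).symm
  have htT : t ∈ S.erase v := Finset.mem_erase.2 ⟨htv, ht⟩
  obtain ⟨s0, hs0, hs0max⟩ := (S.erase v).exists_max_image (fun s => inner ℝ g (q s)) ⟨t, htT⟩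
  obtain ⟨w, hw, hwmax⟩ := ((S.erase v).filter
    (fun s => inner ℝ g (q s) = inner ℝ g (q s0))).exists_max_image (fun s => ‖q s‖)
      ⟨s0, Finset.mem_filter.2 ⟨hs0, rfl⟩⟩
  rw [Finset.mem_filter] at hw
  obtain ⟨hwT, hwρ⟩ := hw
  have hwS : w ∈ S := Finset.mem_of_mem_erase hwT
  have hwv : w ≠ v := Finset.ne_of_mem_erase hwT
  have hρ : 0 < inner ℝ g (q w) := by
    rw [hwρ]
    refine lt_of_lt_of_le ?_ (hs0max t htT)
    simp only [hq]
    rw [inner_smul_right, inner_sub_right]
    exact mul_pos (inv_pos.2 (hDpos t htT)) (sub_pos.2 hgt)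
  have hmax : ∀ s ∈ S.erase v, inner ℝ g (q s) ≤ inner ℝ g (q w) := by
    intro s hs
    rw [hwρ]
    exact hs0max s hs
  -- strict comparison after a small perturbation
  have hev : ∀ᶠ ε : ℝ in 𝓝[>] 0, ∀ s ∈ (S.erase v).erase w,
      inner ℝ (g + ε • q w) (q s) < inner ℝ (g + ε • q w) (q w) := by
    rw [Finset.eventually_all]
    intro s hs
    have hsT := Finset.mem_of_mem_erase hs
    have hsw := Finset.ne_of_mem_erase hs
    rcases (hmax s hsT).eq_or_lt with heq | hlt
    · -- Cauchy-Schwarz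
      have hn : ‖q s‖ ≤ ‖q w‖ := hwmax s (Finset.mem_filter.2 ⟨hsT, heq.trans hwρ⟩)
      have hne : q s ≠ q w := fun h => hsw (hqinj s hsT w hwT h)
      have hlt : inner ℝ (q w) (q s) < inner ℝ (q w) (q w) := by
        have h1 : 0 < ‖q w - q s‖ ^ 2 := by
          have : 0 < ‖q w - q s‖ := norm_pos_iff.2 (sub_ne_zero.2 hne.symm)
          positivity
        rw [norm_sub_sq_real] at h1
        have h2 : ‖q s‖ ^ 2 ≤ ‖q w‖ ^ 2 := by
          exact pow_le_pow_left₀ (norm_nonneg _) hn 2
        rw [real_inner_self_eq_norm_sq]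
        linarith
      filter_upwards [self_mem_nhdsWithin] with ε hε
      have hε' : (0 : ℝ) < ε := hε
      have hψ : ∀ x, inner ℝ (g + ε • q w) x = inner ℝ g x + ε * inner ℝ (q w) x := fun x => by
        rw [inner_add_left, real_inner_smul_left]
      rw [hψ, hψ, heq]
      have := mul_lt_mul_of_pos_left hlt hε'
      linarith
    · have hc1 : Continuous fun ε : ℝ => inner ℝ (g + ε • q w) (q s) := by fun_prop
      have hc2 : Continuous fun ε : ℝ => inner ℝ (g + ε • q w) (q w) := by fun_prop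
      have h0 : inner ℝ (g + (0 : ℝ) • q w) (q s) < inner ℝ (g + (0 : ℝ) • q w) (q w) := by
        rw [zero_smul, add_zero]
        exact hlt
      exact nhdsWithin_le_nhds (hc1.continuousAt.eventually_lt hc2.continuousAt h0)
  have hev2 : ∀ᶠ ε : ℝ in 𝓝[>] 0, (0 : ℝ) < ε := self_mem_nhdsWithin
  obtain ⟨ε, hε1, hε0⟩ := (hev.and hev2).exists
  set g' : E := g + ε • q w with hg'
  set ρ' : ℝ := inner ℝ g' (q w) with hρ'
  have hφ : ∀ x, inner ℝ (g' + ρ' • a) x = inner ℝ g' x + ρ' * inner ℝ a x := fun x => by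
    rw [inner_add_left, real_inner_smul_left]
  refine ⟨w, hwS, hwv.symm, exposed_seg S v w hv hwS hwv.symm (g' + ρ' • a) ?_ ?_, ?_⟩
  · -- equality at `w`
    have hDw := hDpos w hwT
    have h1 : inner ℝ g' (w - v) = D w * ρ' := by
      rw [hρ']
      simp only [hq]
      rw [inner_smul_right, ← mul_assoc, mul_inv_cancel₀ hDw.ne', one_mul]
    rw [inner_sub_right] at h1
    rw [hφ, hφ]
    have h2 : D w = inner ℝ a v - inner ℝ a w := rfl
    rw [h2] at h1
    linarith
  · intro s hs hsv hsw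
    have hsT : s ∈ S.erase v := Finset.mem_erase.2 ⟨hsv, hs⟩
    have hDs := hDpos s hsT
    have h1 : inner ℝ g' (s - v) = D s * inner ℝ g' (q s) := by
      simp only [hq]
      rw [inner_smul_right, ← mul_assoc, mul_inv_cancel₀ hDs.ne', one_mul]
    have h3 : inner ℝ g' (q s) < ρ' := hε1 s (Finset.mem_erase.2 ⟨hsw, hsT⟩)
    have h4 := mul_lt_mul_of_pos_left h3 hDs
    rw [inner_sub_right] at h1
    rw [hφ, hφ]
    have h2 : D s = inner ℝ a v - inner ℝ a s := rfl
    rw [h2] at h1 h4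
    linarith
  · have hDw := hDpos w hwT
    have h1 : inner ℝ g (w - v) = D w * inner ℝ g (q w) := by
      simp only [hq]
      rw [inner_smul_right, ← mul_assoc, mul_inv_cancel₀ hDw.ne', one_mul]
    rw [inner_sub_right] at h1
    have := mul_pos hDw hρ
    linarith

theorem imp : S_IMP := by
  intro d S hS g v s hgs
  obtain ⟨w, hw, hvw, hexp, hgw⟩ := improve S hS g v s v.2 s.2 hgs
  refine ⟨⟨w, hw⟩, ?_, hgw⟩
  rw [pg, SimpleGraph.fromRel_adj]
  refine ⟨fun h => hvw (congrArg Subtype.val h), Or.inl hexp⟩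

end Pool.Agent.Y85.JW
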